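import Pool.Agent.H938R3.HT.Stmts

/-! Task BUILD of the project H938-HT (MP_833c5c_lc). -/

namespace Pool.Agent.H938R3.HT

namespace BuildT

/-- an index `≥ e` with `F ⊆ [0, x p]` -/
def pk (e : ℕ) (F : Finset ℕ) : ℕ := max e (F.sup id)

/-- the accumulated chain -/
def GG (x : ℕ → ℕ) (h : ℕ → Finset ℕ) (e : ℕ) : ℕ → Finset ℕ
  | 0 => h (x (e + 1))
  | k + 1 => GG x h e k ∪ h (x (pk e (GG x h e k) + 1))

/-- the new pieces -/
def HH (x : ℕ → ℕ) (h : ℕ → Finset ℕ) (e : ℕ) : ℕ → Finset ℕ
  | 0 => h (x (e + 1))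
  | k + 1 => h (x (pk e (GG x h e k) + 1))

lemma le_pk {x : ℕ → ℕ} (hx : StrictMono x) (e : ℕ) (F : Finset ℕ) : ∀ i ∈ F, i ≤ x (pk e F) := by
  intro i hi
  calc i ≤ F.sup id := Finset.le_sup (f := id) hi
    _ ≤ pk e F := le_max_right _ _
    _ ≤ x (pk e F) := hx.le_apply

end BuildT

open BuildT in
theorem build : TaskBUILD := by
  classical
  intro hcpt hfront hcount hee V hV x hx hd ht
  obtain ⟨c₀, hc₀⟩ := hcount (Small V x)
    (by
      intro σ τ hτσ _ hσ
      obtain ⟨e, q, h1, A, hA, h, h2, h3⟩ := hσ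
      exact ⟨e, q, fun i hi => h1 i (hτσ hi), A, hA, h, h2, hτσ.trans h3⟩)
    (hfront hcpt V hV x hx hd ht)
  refine ⟨fun F => c₀ (EE x F), ?_⟩
  intro e Y hYx hY htot
  choose h hh using htot
  set A : Set ℕ := {i | x i ∈ Y} with hA
  have hAY : x '' A = Y := by
    ext y
    constructor
    · rintro ⟨i, hi, rfl⟩
      exact hi
    · intro hy
      obtain ⟨i, rfl⟩ := hYx hy
      exact ⟨i, hy, rfl⟩
  have hAinf : A.Infinite := by
    intro hfin
    apply hY
    rw [← hAY]
    exact hfin.image _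
  have hgt : ∀ t, ∀ j ∈ h t, t < j := fun t => hV.gt (hh t)
  have hne : ∀ t, (h t).Nonempty := fun t => hV.ne (hh t)
  have hstep : ∀ k, EE x (GG x h e k ∪ HH x h e (k + 1)) =
      EE x (GG x h e k) ∪ EE x (HH x h e (k + 1)) ∧
      (∀ i ∈ EE x (GG x h e k), i ≤ pk e (GG x h e k)) ∧
      (∀ j ∈ EE x (HH x h e (k + 1)), pk e (GG x h e k) + 2 ≤ j) ∧
      (EE x (HH x h e (k + 1))).Nonempty := fun k =>
    hee x hx (pk e (GG x h e k)) (GG x h e k) (HH x h e (k + 1)) (hne _) (le_pk hx e _) (hgt _)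
  have hG : ∀ k, EE x (GG x h e k) =
      (Finset.range (k + 1)).biUnion (fun k => EE x (HH x h e k)) := by
    intro k
    induction k with
    | zero => simp [GG, HH]
    | succ k ih =>
      rw [Finset.range_add_one, Finset.biUnion_insert, ← ih, Finset.union_comm]
      exact (hstep k).1
  have hsub : ∀ k, EE x (HH x h e k) ⊆ EE x (GG x h e k) := by
    intro k
    rw [hG]
    exact Finset.subset_biUnion_of_mem (fun k => EE x (HH x h e k)) (by simp)
  obtain ⟨k, hk⟩ := hc₀ (fun k => EE x (HH x h e k))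
    (by
      intro k
      cases k with
      | zero =>
        exact (hee x hx e ∅ (HH x h e 0) (hne _) (by simp) (hgt _)).2.2.2
      | succ k => exact (hstep k).2.2.2)
    (by
      intro k i hi j hj
      have h1 := (hstep k).2.1 i (hsub k hi)
      have h2 := (hstep k).2.2.1 j hj
      omega)
    (by
      intro k
      refine ⟨e, pk e (GG x h e k) + 1, ?_, A, hAinf, HH x h e (k + 1), ?_, subset_rfl⟩
      · intro i hi
        have h2 := (hstep k).2.2.1 i hi
        have h3 : e ≤ pk e (GG x h e k) := le_max_left _ _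
        omega
      · rw [hAY]
        exact hh _)
  have hchain : ∀ k, Chain V e Y (GG x h e k) := by
    intro k
    induction k with
    | zero => exact Chain.base _ _ (hh _)
    | succ k ih =>
      refine Chain.step _ (x (pk e (GG x h e k) + 1)) _ ih ?_ (hh _)
      intro i hi
      exact (le_pk hx e _ i hi).trans (hx.monotone (Nat.le_succ _))
  refine ⟨GG x h e k, GG x h e (k + 1), hchain k, hchain (k + 1), ?_⟩
  simp only
  rw [hG k, hG (k + 1)]
  exact hk

end Pool.Agent.H938R3.HT
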