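import Pool.Agent.H938R3.HT.Stmts

/-! # Task CPT of project H938-HT (MP_833c5c_lc) -/

namespace Pool.Agent.H938R3.HT

theorem cpt : TaskCPT := by
  intro A
  refine ⟨{i | ∀ᶠ n in (Filter.hyperfilter ℕ : Filter ℕ), i ∈ A n}, fun k N => ?_⟩
  have h1 : ∀ i : ℕ, ∀ᶠ n in (Filter.hyperfilter ℕ : Filter ℕ),
      (i ∈ A n ↔ i ∈ {i | ∀ᶠ n in (Filter.hyperfilter ℕ : Filter ℕ), i ∈ A n}) := by
    intro i
    by_cases hi : ∀ᶠ n in (Filter.hyperfilter ℕ : Filter ℕ), i ∈ A n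
    · filter_upwards [hi] with n hn
      exact ⟨fun _ => hi, fun _ => hn⟩
    · have hi2 : ∀ᶠ n in (Filter.hyperfilter ℕ : Filter ℕ), ¬ i ∈ A n :=
        Ultrafilter.eventually_not.2 hi
      filter_upwards [hi2] with n hn
      exact ⟨fun h => absurd h hn, fun h => absurd h hi⟩
  have h2 : ∀ᶠ n in (Filter.hyperfilter ℕ : Filter ℕ), ∀ i ∈ Finset.range k,
      (i ∈ A n ↔ i ∈ {i | ∀ᶠ n in (Filter.hyperfilter ℕ : Filter ℕ), i ∈ A n}) :=
    (Filter.eventually_all_finset _).2 fun i _ => h1 i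
  have h3 : ∀ᶠ n in (Filter.hyperfilter ℕ : Filter ℕ), N ≤ n :=
    (Filter.eventually_ge_atTop N).filter_mono Nat.hyperfilter_le_atTop
  obtain ⟨n, hn, hN⟩ := (h2.and h3).exists
  exact ⟨n, hN, fun i hi => hn i (Finset.mem_range.2 hi)⟩

end Pool.Agent.H938R3.HT
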