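import Pool.Agent.H938R3.HT.Stmts

/-! Task FRONT of H938-HT. -/

namespace Pool.Agent.H938R3.HT

set_option linter.unusedVariables false

theorem front : TaskFRONT := by
  intro hCPT V hV x hx hD hT Z hZ
  classical
  by_contra hcon
  push Not at hcon
  -- the initial segments of `Z`
  have hZne : Z.Nonempty := hZ.nonempty
  set z0 : ℕ := sInf Z with hz0
  have hz0Z : z0 ∈ Z := Nat.sInf_mem hZne
  set sg : ℕ → Finset ℕ := fun n => (Finset.range (z0 + n + 1)).filter (fun i => i ∈ Z) with hsg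
  have hsgm : ∀ n i, i ∈ sg n ↔ i ≤ z0 + n ∧ i ∈ Z := by
    intro n i
    simp only [hsg, Finset.mem_filter, Finset.mem_range, Nat.lt_succ_iff]
  have hsmono : ∀ n n', n ≤ n' → sg n ⊆ sg n' := by
    intro n n' hn i hi
    rw [hsgm] at hi ⊢
    exact ⟨by omega, hi.2⟩
  have hsz : ∀ n, z0 ∈ sg n := fun n => (hsgm n z0).mpr ⟨by omega, hz0Z⟩
  have hall : ∀ n, ∃ e q : ℕ, e ≤ z0 ∧ q ≤ z0 ∧ ∃ A : Set ℕ, A.Infinite ∧
      ∃ h, V e (x q) (x '' A) h ∧ sg n ⊆ EE x h := by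
    intro n
    obtain ⟨e, q, h1, A, hA, h, hVh, hsub⟩ :=
      hcon (sg n) ⟨z0, hsz n⟩ (fun i hi => ((hsgm n i).mp hi).2)
    exact ⟨e, q, (h1 z0 (hsz n)).1, (h1 z0 (hsz n)).2, A, hA, h, hVh, hsub⟩
  choose e' q' he' hq' hA' using hall
  -- one pair works for all n
  obtain ⟨y, hy⟩ := Finite.exists_infinite_fiber
    (fun n : ℕ => ((⟨e' n, Nat.lt_succ_of_le (he' n)⟩ : Fin (z0 + 1)),
      (⟨q' n, Nat.lt_succ_of_le (hq' n)⟩ : Fin (z0 + 1))))
  have hyi : (((fun n : ℕ => ((⟨e' n, Nat.lt_succ_of_le (he' n)⟩ : Fin (z0 + 1)),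
      (⟨q' n, Nat.lt_succ_of_le (hq' n)⟩ : Fin (z0 + 1)))) ⁻¹' {y}) : Set ℕ).Infinite :=
    Set.infinite_coe_iff.mp hy
  set e : ℕ := y.1.val with he
  set q : ℕ := y.2.val with hq
  have hone : ∀ n, ∃ A : Set ℕ, A.Infinite ∧ ∃ h, V e (x q) (x '' A) h ∧ sg n ⊆ EE x h := by
    intro n
    obtain ⟨n', hn', hlt⟩ := hyi.exists_gt n
    have h1 : e' n' = e ∧ q' n' = q := by
      have := hn'
      simp only [Set.mem_preimage, Set.mem_singleton_iff] at this
      constructor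
      · rw [he, ← this]
      · rw [hq, ← this]
    obtain ⟨A, hA, h, hVh, hsub⟩ := hA' n'
    rw [h1.1, h1.2] at hVh
    exact ⟨A, hA, h, hVh, (hsmono n n' hlt.le).trans hsub⟩
  choose A hA h hVh hsub using hone
  obtain ⟨B, hB⟩ := hCPT A
  -- `B` is infinite
  have hBi : B.Infinite := by
    apply Set.infinite_of_forall_exists_gt
    intro M
    obtain ⟨z, hzZ, hz⟩ := hZ.exists_gt (max q e + 1 + M + 1)
    obtain ⟨n, hn, hag⟩ := hB (z + 1) z
    have hzs : z ∈ sg n := (hsgm n z).mpr ⟨by omega, hzZ⟩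
    rcases hT e q (A n) (h n) (hA n) (hVh n) z (hsub n hzs) with h1 | h1 | ⟨j, hj, hj1⟩
    · omega
    · exact ⟨z, (hag z (by omega)).mp h1, by omega⟩
    · exact ⟨j, (hag j (by omega)).mp hj, by omega⟩
  -- a value for `B`
  obtain ⟨h', hh'⟩ : ∃ h', V e (x q) (x '' B) h' := by
    obtain ⟨n, _, hag⟩ := hB (max e q + 1) 0
    exact hD e q (max e q) (le_max_left _ _) (le_max_right _ _) (A n) B (hA n) hBi
      (fun i hi => hag i (by omega)) ⟨h n, hVh n⟩
  obtain ⟨N, hN⟩ := hV.cont hh'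
  obtain ⟨z, hzZ, hz⟩ := hZ.exists_gt ((EE x h').sup id)
  obtain ⟨n, hn, hag⟩ := hB N z
  have hVn : V e (x q) (x '' A n) h' := by
    apply hN
    intro i hi
    constructor
    · rintro ⟨j, hj, rfl⟩
      have hji : j ≤ x j := hx.id_le j
      exact ⟨j, (hag j (by omega)).mp hj, rfl⟩
    · rintro ⟨j, hj, rfl⟩
      have hji : j ≤ x j := hx.id_le j
      exact ⟨j, (hag j (by omega)).mpr hj, rfl⟩
  have heq : h n = h' := hV.func (hVh n) hVn
  have hzs : z ∈ sg n := (hsgm n z).mpr ⟨by omega, hzZ⟩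
  have hzE : z ∈ EE x h' := by
    rw [← heq]; exact hsub n hzs
  have : z ≤ (EE x h').sup id := Finset.le_sup (f := id) hzE
  omega

end Pool.Agent.H938R3.HT
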