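import Pool.Agent.H938R3.HT.Stmts

/-!
# Task FIN: final assembly
-/

namespace Pool.Agent.H938R3.HT

theorem fin_chain (hSUPP : TaskSUPP) {V : Fam} {e : ℕ} {Y : Set ℕ} {g : ℕ → Bool}
    (h : ∀ t h, V e t Y h →
      ∃ s : Finset ℕ, s.Nonempty ∧ (∀ i ∈ s, g i = true ∧ 2 ^ (t + 1) ≤ i) ∧
        2 ^ (t + 1) ∣ ∑ i ∈ s, i ∧ h = supp (∑ i ∈ s, i)) {G : Finset ℕ} (hG : Chain V e Y G) :
    ∃ s : Finset ℕ, s.Nonempty ∧ (∀ i ∈ s, g i = true) ∧ G = supp (∑ i ∈ s, i) := by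
  induction hG with
  | base t h' hV =>
    obtain ⟨s, h1, h2, -, h4⟩ := h t h' hV
    exact ⟨s, h1, fun i hi => (h2 i hi).1, h4⟩
  | step G t h' _ hGt hV ih =>
    obtain ⟨s, hs1, hs2, hs3⟩ := ih
    obtain ⟨s', h1, h2, h3, h4⟩ := h t h' hV
    obtain ⟨-, S2, -, S4⟩ := hSUPP
    have hlt : ∑ i ∈ s, i < 2 ^ (t + 1) := S4 _ t (by rw [← hs3]; exact hGt)
    have hdis : Disjoint s s' := by
      rw [Finset.disjoint_left]
      intro i hi hi'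
      have h5 := (h2 i hi').2
      have h6 : i ≤ ∑ i ∈ s, i := Finset.single_le_sum (f := fun i => i) (fun _ _ => Nat.zero_le _) hi
      omega
    refine ⟨s ∪ s', hs1.mono Finset.subset_union_left, ?_, ?_⟩
    · intro i hi
      rcases Finset.mem_union.1 hi with hi | hi
      · exact hs2 i hi
      · exact (h2 i hi).1
    · rw [Finset.sum_union hdis, S2 _ _ _ hlt h3, ← hs3, ← h4]

theorem fin : TaskFIN := by
  intro hCore hPHI hSUPP hPIG hV hHOM H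
  obtain ⟨Φ, hΦ, hΦT⟩ := hPHI
  obtain ⟨V, hgood, hVs⟩ := hV hSUPP hPIG Φ hΦ
  obtain ⟨X, hX, c, hc⟩ := hCore V hgood
  obtain ⟨d, -, hd⟩ := H (fun n => (c (supp n)).toNat) ⟨2, fun n => Bool.toNat_lt _⟩
  obtain ⟨Y, hYX, hYinf, b, hb⟩ := hHOM d X hX
  classical
  have hY : {i | (fun n => decide (n ∈ Y)) i = true} = Y := by
    ext i; simp
  obtain ⟨g, hgT, hginf, -, b', hb'⟩ := hd (fun n => decide (n ∈ Y))
    ⟨by rw [hY]; exact hYinf, b, fun s hs hm => hb s (fun i hi => by simpa using hs i hi) hm⟩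
  obtain ⟨e, he⟩ := hΦT g _ hgT
  rw [hY] at he
  obtain ⟨hV1, hV2⟩ := hVs e Y g hginf he
  obtain ⟨G, G', hG, hG', hne⟩ := hc e Y hYX hYinf hV1
  obtain ⟨s, s1, s2, s3⟩ := fin_chain hSUPP hV2 hG
  obtain ⟨s', s1', s2', s3'⟩ := fin_chain hSUPP hV2 hG'
  have e1 := hb' s s1 s2
  have e2 := hb' s' s1' s2'
  rw [← s3] at e1
  rw [← s3'] at e2
  apply hne
  have e3 := e1.trans e2.symm
  revert e3
  cases c G <;> cases c G' <;> simp

end Pool.Agent.H938R3.HT
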