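import Pool.Agent.H938R3.HT.Stmts

/-! Task GS of project H938-HT (written by helper885). -/

set_option autoImplicit false

namespace Pool.Agent.H938R3.HT

theorem gs_spec : TaskGS := by
  intro V hG X hD b hb Y hYX hYi s hs hYs e he t ht h hV i hi
  constructor
  · intro hih
    exact ⟨b, hb, hi, he, ht, hs, Y, hYX, hYi, hYs, h, hV, hih⟩
  · rintro ⟨b', hb', hi', he', ht', hs', Y', hY'X, hY'i, hY's, h', hV', hih'⟩
    rcases le_total b' b with hbb | hbb
    · obtain ⟨h'', hV'', hag⟩ := hD b' hb' Y' Y hY'X hYX hY'i hYi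
        (fun j hj => (hY's j hj).trans (hYs j (hj.trans hbb)).symm) e he' t ht' h' hV'
      rw [hG.func hV hV'']
      exact (hag i hi').1 hih'
    · obtain ⟨h'', hV'', hag⟩ := hD b hb Y' Y hY'X hYX hY'i hYi
        (fun j hj => (hY's j (hj.trans hbb)).trans (hYs j hj).symm) e he t ht h' hV'
      rw [hG.func hV hV'']
      exact (hag i hi).1 hih'

end Pool.Agent.H938R3.HT
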