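import Pool.Agent.H938R3.HT.Defs
import Pool.Agent.H38R3.Ellentuck

/-!
# Task statements for the negation of `HT ≤_sc RT^{!ω}_2` (MP_833c5c_lc, S14980)

Each `TaskXXX` is a Prop to be proved as `theorem xxx : TaskXXX` in a file of its own that imports
this file.  Proof sketches are in the docstrings.
-/

namespace Pool.Agent.H938R3.HT

set_option linter.unusedVariables false

/-- `X` decides all values below its elements. -/
def DD (V : Fam) (X : Set ℕ) : Prop :=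
  ∀ b ∈ X, ∀ Y Y' : Set ℕ, Y ⊆ X → Y' ⊆ X → Y.Infinite → Y'.Infinite →
    (∀ i ≤ b, (i ∈ Y ↔ i ∈ Y')) → ∀ e ≤ b, ∀ t ≤ b, ∀ h, V e t Y h →
      ∃ h', V e t Y' h' ∧ ∀ i ≤ b, (i ∈ h ↔ i ∈ h')

/-- Fusion. Sketch (uses `Pool.Agent.H38R3.Ell`): for `e t b : ℕ`, `r : Finset ℕ` the set
`S = {Z | ∃ h, V e t Z h ∧ h ∩ [0,b] = r}` is open, so `EO`, so `CR` (`EO.cr`). Use `fusion` with
`R u Y := ∀ s ⊆ u, ∀ e ≤ b, ∀ t ≤ b, ∀ r ⊆ range (b+1), (∀ z ∈ Nb s (above u Y), z ∈ S) ∨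
(∀ z ∈ Nb s (above u Y), z ∉ S)` with `b = u.sup id`, `t₀ = ∅`, `X = univ`. For `b ∈ X` apply it to
`u = X ∩ [0,b]`, `s = Y ∩ [0,b]`. -/
def TaskFUS : Prop := ∀ V : Fam, Good V → ∃ X : Set ℕ, X.Infinite ∧ DD V X

/-- limit of the values with stem `s` -/
def gs (V : Fam) (X : Set ℕ) (e t : ℕ) (s : Finset ℕ) : Set ℕ :=
  {i | ∃ b ∈ X, i ≤ b ∧ e ≤ b ∧ t ≤ b ∧ (∀ j ∈ s, j ≤ b) ∧ ∃ Y : Set ℕ, Y ⊆ X ∧ Y.Infinite ∧
    (∀ j ≤ b, (j ∈ Y ↔ j ∈ s)) ∧ ∃ h, V e t Y h ∧ i ∈ h}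

/-- Sketch: (→) is the definition. (←): `i ∈ gs` via `b', Y', h'`. If `b' ≤ b` then `Y, Y'` agree up
to `b'` (both are `s` there), apply `DD` at `b'`; if `b ≤ b'` they agree up to `b`, apply `DD` at `b`.
Use `func` to identify values. -/
def TaskGS : Prop := ∀ V : Fam, Good V → ∀ X : Set ℕ, DD V X → ∀ b ∈ X, ∀ Y : Set ℕ, Y ⊆ X →
  Y.Infinite → ∀ s : Finset ℕ, (∀ j ∈ s, j ≤ b) → (∀ j ≤ b, (j ∈ Y ↔ j ∈ s)) →
    ∀ e ≤ b, ∀ t ≤ b, ∀ h, V e t Y h → ∀ i ≤ b, (i ∈ h ↔ i ∈ gs V X e t s)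

/-- thinness -/
def Thin (g : ℕ → ℕ → Finset ℕ → Set ℕ) (x : ℕ → ℕ) : Prop :=
  ∀ p e t : ℕ, e ≤ x p → t ≤ x p → ∀ s : Finset ℕ, (∀ j ∈ s, j ≤ x p) →
    ((g e t s).Infinite → ∃ n ∈ g e t s, x p < n ∧ n ≤ x (p + 1)) ∧
    ((g e t s).Finite → ∀ n ∈ g e t s, n ≤ x (p + 1))

/-- Sketch: for each `a` there is `B` such that every `a' ≥ B` works as `x (p+1)` when `x p = a`
(finitely many `e, t ≤ a` and `s ⊆ range (a+1)`; each condition holds for all large `a'`). Then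
recursion (choose `a' ∈ X`, `a' > a`, `a' ≥ B`). -/
def TaskTHIN : Prop := ∀ (g : ℕ → ℕ → Finset ℕ → Set ℕ) (X : Set ℕ), X.Infinite →
  ∃ x : ℕ → ℕ, StrictMono x ∧ (∀ p, x p ∈ X) ∧ Thin g x

/-- Sketch. `Dich`: `DD` at `b = x m` (`x '' A` and `x '' A'` agree up to `x m`; `e ≤ m ≤ x m`,
`x q ≤ x m`). `Trace`: let `Y = x '' A`, `i ∈ EE x h`, and suppose `i ≥ max q e + 2`, `i ∉ A`,
`i - 1 ∉ A`. Let `s` be the finset of `Y ∩ [0, x i]`; then `s ⊆ [0, x (i-2)]`. `GS` at `b = x i`: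
for `n ≤ x i`, `n ∈ h ↔ n ∈ gs V X e (x q) s`. `Thin` at `p = i - 2` (`e ≤ i-2 ≤ x (i-2)`,
`x q ≤ x (i-2)`): if `gs` is infinite, it has an `n` with `x (i-2) < n ≤ x (i-1)`; then `n ∈ h`,
`blk x n = i - 1`, so `i - 1 ∈ (h.image (blk x))`, contradicting `i ∈ EE x h`. If it is finite all its
elements are `≤ x (i-1)`, but `i ∈ h.image (blk x)` gives `n ∈ h` with `x (i-1) < n ≤ x i`,
contradiction. (`blk x n = i` iff `n ≤ x i` and `∀ j < i, x j < n`; and `i ≥ 2` here.) -/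
def TaskTRACE : Prop := TaskGS → ∀ V : Fam, Good V → ∀ X : Set ℕ, DD V X → ∀ x : ℕ → ℕ,
  StrictMono x → (∀ p, x p ∈ X) → Thin (gs V X) x → Dich V x ∧ Trace V x

/-- small finite sets -/
def Small (V : Fam) (x : ℕ → ℕ) (σ : Finset ℕ) : Prop :=
  ∃ e q : ℕ, (∀ i ∈ σ, e ≤ i ∧ q ≤ i) ∧ ∃ A : Set ℕ, A.Infinite ∧
    ∃ h, V e (x q) (x '' A) h ∧ σ ⊆ EE x h

/-- Compactness. Sketch: `B = {i | ∀ᶠ n in hyperfilter ℕ, i ∈ A n}` (`Filter.hyperfilter ℕ`,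
an ultrafilter below `atTop`/cofinite); for each `i < k` eventually `(i ∈ A n ↔ i ∈ B)`, finite
intersection, and `n ≥ N` eventually; take an element. -/
def TaskCPT : Prop := ∀ A : ℕ → Set ℕ, ∃ B : Set ℕ, ∀ k N : ℕ, ∃ n ≥ N, ∀ i < k, (i ∈ A n ↔ i ∈ B)

/-- Sketch: suppose all finite nonempty subsets of `Z` are `Small`; let `z₀ = min Z`,
`σ n = {i ∈ Z | i ≤ z₀ + n}`. For each `n` there are `e, q ≤ z₀`, infinite `A n`, `h n` with
`V e (x q) (x '' A n) (h n)` and `σ n ⊆ EE x (h n)`. As being good for `n` is downward closed in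
`n` and there are finitely many pairs, one `(e,q)` works for all `n`. `CPT` gives `B` for `A`.
`B` is infinite: for `z ∈ Z` with `z > max q e + 1`, take `n ≥ z` with `A n`, `B` agreeing below
`z + 1`; `z ∈ σ n ⊆ EE x (h n)`, so by `Trace` `z ∈ A n` or `z - 1 ∈ A n`, hence `z ∈ B` or
`z - 1 ∈ B`. By `Dich` (with `m = max e q` and an `n` with `A n`, `B` agreeing up to `m`) there is
`h` with `V e (x q) (x '' B) h`. By `cont` there is `N` such that every `Y'` agreeing with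
`x '' B` below `N` has value `h`; if `A n`, `B` agree below `N` then so do `x '' A n`, `x '' B`
(`i ≤ x i`, injective), so `h n = h` (`func`) for arbitrarily large `n`; then `Z ⊆ EE x h` finite:
contradiction. -/
def TaskFRONT : Prop := TaskCPT → ∀ V : Fam, Good V → ∀ x : ℕ → ℕ, StrictMono x → Dich V x →
  Trace V x → ∀ Z : Set ℕ, Z.Infinite →
    ∃ σ : Finset ℕ, σ.Nonempty ∧ (∀ i ∈ σ, i ∈ Z) ∧ ¬ Small V x σ

/-- Greedy counting. Sketch: for a set `Z` define the state after reading the elements `< n`: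
`st Z 0 = (∅, 0)`, `st Z (n+1) = if n ∈ Z then (if ¬ Sm (insert n ρ) then (∅, k+1) else
(insert n ρ, k)) else (ρ, k)` where `(ρ, k) = st Z n`. `c F = parity of (st F (F.sup id + 1)).2`.
Lemmas: `st` only depends on the part below `n`; no change on gaps; if `Z ∩ [n, m)` has all its
nonempty finite subsets `Sm`, then either `st Z m = (ρ ∪ Z ∩ [n,m), k)` or `(st Z m).2 = k + 1` and
`(st Z m).1 ⊆ Z ∩ [n,m)` where `(ρ,k) = st Z n`; and `ρ` is always empty or `Sm`. If the conclusion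
fails for `E`, let `Z = ⋃ E k`, `n k = (E k).sup id + 1`; the parities of the counts at `n k` are all
equal, so the counts are equal, so the buffers satisfy `ρ (k+1) = ρ k ∪ E (k+1)`; all are `Sm`, so
every finite nonempty subset of `Z' = ⋃ k, E (k+1)` is `Sm`, contradicting `hZ`. -/
def TaskCOUNT : Prop := ∀ Sm : Finset ℕ → Prop,
  (∀ σ τ : Finset ℕ, τ ⊆ σ → τ.Nonempty → Sm σ → Sm τ) →
  (∀ Z : Set ℕ, Z.Infinite → ∃ σ : Finset ℕ, σ.Nonempty ∧ (∀ i ∈ σ, i ∈ Z) ∧ ¬ Sm σ) →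
  ∃ c : Finset ℕ → Bool, ∀ E : ℕ → Finset ℕ, (∀ k, (E k).Nonempty) →
    (∀ k, ∀ i ∈ E k, ∀ j ∈ E (k + 1), i < j) → (∀ k, Sm (E (k + 1))) →
      ∃ k, c ((Finset.range (k + 1)).biUnion E) ≠ c ((Finset.range (k + 2)).biUnion E)

/-- Sketch: elements of `G` have block index `≤ p`, those of `h` have block index `≥ p + 2`
(`blk x n ≤ p ↔ n ≤ x p` for `StrictMono x`). So no block of `h` is adjacent to one of `G`. The
least element of `h.image (blk x)` is in `EE x h`. -/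
def TaskEE : Prop := ∀ x : ℕ → ℕ, StrictMono x → ∀ (p : ℕ) (G h : Finset ℕ), h.Nonempty →
  (∀ i ∈ G, i ≤ x p) → (∀ j ∈ h, x (p + 1) < j) →
    EE x (G ∪ h) = EE x G ∪ EE x h ∧ (∀ i ∈ EE x G, i ≤ p) ∧ (∀ j ∈ EE x h, p + 2 ≤ j) ∧
      (EE x h).Nonempty

/-- Sketch: take `c F := c₀ (EE x F)` with `c₀` from `COUNT` for `Sm = Small V x` (closed under
subsets). Given `e`, `Y`: `A = {i | x i ∈ Y}`, `x '' A = Y`. `G 0 = h 0` with `V e (x e) Y (h 0)`;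
given `G k`, pick `p ≥ e` with `G k ⊆ [0, x p]` and `h (k+1)` with `V e (x (p+1)) Y (h (k+1))`,
`G (k+1) = G k ∪ h (k+1)` (`Chain.step` with `t = x (p+1)`). `E 0 = EE x (G 0)`,
`E (k+1) = EE x (h (k+1))`; by `TaskEE` `EE x (G k) = (range (k+1)).biUnion E`. `E (k+1)` is `Small`
by `e, q = p + 1` (its elements are `≥ p + 2`). -/
def TaskBUILD : Prop := TaskCPT → TaskFRONT → TaskCOUNT → TaskEE → Part2

/-- functionals -/
structure Fun (Φ : ℕ → Set ℕ → ℕ → Bool → Prop) : Prop where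
  func : ∀ {e : ℕ} {Y : Set ℕ} {n : ℕ} {b b' : Bool}, Φ e Y n b → Φ e Y n b' → b = b'
  cont : ∀ {e : ℕ} {Y : Set ℕ} {n : ℕ} {b : Bool}, Φ e Y n b →
    ∃ N : ℕ, ∀ Y' : Set ℕ, (∀ i < N, (i ∈ Y' ↔ i ∈ Y)) → Φ e Y' n b

/-- Sketch: `Pool.Agent.Helper583.TC.J2.NF.normal_form (g : ℕ → ℕ) f (hf : Nat.RecursiveIn {g} f)`
(file `Pool/Agent/Helper583/TCJ14.lean` or near) gives
`F : List ℕ → ℕ → Option ℕ`, `Primrec₂ F ∧ Mon F ∧ ∀ n m, m ∈ f n ↔ ∃ k, F (pre g k) n = some m`.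
The set of `Primrec₂` functions `F` is countable (codes, `Nat.Partrec.Code.exists_code`), so take a
surjection `e ↦ F e` onto the `Primrec₂`, `Mon` ones (there is one) and put `Φ e Y n b :=
∃ k, F e (pre (χ_Y) k) n = some b.toNat` with `χ_Y i = if i ∈ Y then 1 else 0`. -/
def TaskPHI : Prop := ∃ Φ : ℕ → Set ℕ → ℕ → Bool → Prop, Fun Φ ∧ ∀ g h : ℕ → Bool,
  TuringReducible (PFun.lift (fun n => (g n).toNat)) (PFun.lift (fun n => (h n).toNat)) →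
    ∃ e, ∀ n, Φ e {i | h i = true} n (g n)

/-- binary support -/
def supp (n : ℕ) : Finset ℕ := (Finset.range n).filter (fun i => n.testBit i = true)

/-- Sketch: `Nat.testBit` arithmetic (`i ∈ supp n ↔ n.testBit i`; `Nat.testBit_lt_two_pow`,
`Nat.testBit_mul_pow_two_add` etc.). -/
def TaskSUPP : Prop := (∀ n, 0 < n → (supp n).Nonempty) ∧
  (∀ n v t : ℕ, n < 2 ^ t → 2 ^ t ∣ v → supp (n + v) = supp n ∪ supp v) ∧
  (∀ v t : ℕ, 2 ^ (t + 1) ∣ v → ∀ i ∈ supp v, t < i) ∧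
  (∀ n t : ℕ, (∀ i ∈ supp n, i ≤ t) → n < 2 ^ (t + 1))

/-- Sketch: infinitely many elements of `H`, all `≥ M`, have the same residue mod `M`; take `M` of
them (or pigeonhole on partial sums). -/
def TaskPIG : Prop := ∀ H : Set ℕ, H.Infinite → ∀ M : ℕ, 0 < M → ∃ s : Finset ℕ, s.Nonempty ∧
  (∀ i ∈ s, i ∈ H ∧ M ≤ i) ∧ M ∣ ∑ i ∈ s, i

/-- Sketch: `P t F := ∃ s ⊆ F, s.Nonempty ∧ (∀ i ∈ s, 2^(t+1) ≤ i) ∧ 2^(t+1) ∣ ∑ i ∈ s, i`.
`V e t Y h := ∃ N F, (∀ i < N, Φ e Y i (decide (i ∈ F))) ∧ F ⊆ range N ∧ P t F ∧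
(∀ N' < N, ¬ P t (F.filter (· < N'))) ∧ h = supp (∑ i ∈ pick t F, i)` with `pick` a choice function
for `P t F`. `N`, `F` are unique. Continuity: finitely many uses. -/
def TaskV : Prop := TaskSUPP → TaskPIG → ∀ Φ : ℕ → Set ℕ → ℕ → Bool → Prop, Fun Φ →
  ∃ V : Fam, Good V ∧ ∀ (e : ℕ) (Y : Set ℕ) (g : ℕ → Bool), {i | g i = true}.Infinite →
    (∀ n, Φ e Y n (g n)) → (∀ t, ∃ h, V e t Y h) ∧ ∀ t h, V e t Y h →
      ∃ s : Finset ℕ, s.Nonempty ∧ (∀ i ∈ s, g i = true ∧ 2 ^ (t + 1) ≤ i) ∧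
        2 ^ (t + 1) ∣ ∑ i ∈ s, i ∧ h = supp (∑ i ∈ s, i)

/-- Sketch (uses `Pool.Agent.H38R3.Ell`): the set `S` of infinite `Z` such that
`d (∑ i ∈ s, 2^i) = true` for the set `s` of the first `min Z + 1` elements of `Z` is open in the
topology of finite initial segments, so `EO S`, so `CR S` (`EO.cr`); apply `CR` at `t = ∅`, `X`.
Every finite `s ⊆ Y` with `s.card = min s + 1` is the set of the first `min Z + 1` elements of
`Z = s ∪ {n ∈ Y | n > max s}`. -/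
def TaskHOM : Prop := ∀ (d : ℕ → Bool) (X : Set ℕ), X.Infinite → ∃ Y : Set ℕ, Y ⊆ X ∧ Y.Infinite ∧
  ∃ b : Bool, ∀ s : Finset ℕ, (∀ i ∈ s, i ∈ Y) → (∃ m ∈ s, (∀ i ∈ s, m ≤ i) ∧ s.card = m + 1) →
    d (∑ i ∈ s, 2 ^ i) = b

/-- the frozen statement S14980 -/
def Final : Prop :=
    ¬ (∀ c : ℕ → ℕ, (∃ k : ℕ, ∀ n, c n < k) →
    ∃ d : ℕ → Bool,
      TuringReducible (PFun.lift (fun n => (d n).toNat)) (PFun.lift c) ∧
      ∀ h : ℕ → Bool,
        (Set.Infinite {n : ℕ | h n = true} ∧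
          ∃ b : Bool, ∀ s : Finset ℕ, (∀ i ∈ s, h i = true) →
            (∃ m ∈ s, (∀ i ∈ s, m ≤ i) ∧ s.card = m + 1) →
            d (∑ i ∈ s, 2 ^ i) = b) →
        ∃ g : ℕ → Bool,
          TuringReducible (PFun.lift (fun n => (g n).toNat))
            (PFun.lift (fun n => (h n).toNat)) ∧
          Set.Infinite {n : ℕ | g n = true} ∧
          (∀ i, g i = true → 0 < i) ∧
          ∃ b : ℕ, ∀ s : Finset ℕ, s.Nonempty → (∀ i ∈ s, g i = true) →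
            c (∑ i ∈ s, i) = b)

/-- Sketch: `Φ` from `PHI`, `V` from `V`, `X, c` from `Core`; the colouring is
`c' n = (c (supp n)).toNat < 2`. Given `d`, take `Y ⊆ X` from `HOM`, `h = decide (· ∈ Y)`, get `g`,
`e`. `Chain V e Y G → ∃ s nonempty finset ⊆ {g = true}, G = supp (∑ i ∈ s, i)` by induction: in the
step `∑ s < 2^(t+1)` by `SUPP` 4, all elements of `s'` are `≥ 2^(t+1)`, so `s, s'` are disjoint and
`∑ (s ∪ s') = ∑ s + ∑ s'`, `SUPP` 2. So `c' ` takes both values on sums: contradiction. -/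
def TaskFIN : Prop := Core → TaskPHI → TaskSUPP → TaskPIG → TaskV → TaskHOM → Final

end Pool.Agent.H938R3.HT
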