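import Mathlib
import Pool.Agent.H938R3.HT.Stmts

/-!
Project H938-HT (helper938), task HOM (helper174).
-/

namespace Pool.Agent.H938R3.HT

open Pool.Agent.H38R3.Ell

theorem hom_init {Z : Set ℕ} {s s' : Finset ℕ} (h : Z ∈ Nb s Z) (h' : Z ∈ Nb s' Z)
    (hm : ∃ m ∈ s, (∀ i ∈ s, m ≤ i) ∧ s.card = m + 1)
    (hm' : ∃ m ∈ s', (∀ i ∈ s', m ≤ i) ∧ s'.card = m + 1) : s = s' := by
  obtain ⟨m, h1, h2, h3⟩ := hm
  obtain ⟨m', h1', h2', h3'⟩ := hm'
  have hmm : m = m' := by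
    rcases h'.2.2 m (h.2.1 m h1) with a | a
    · rcases h.2.2 m' (h'.2.1 m' h1') with b | b
      · exact le_antisymm (h2 _ b) (h2' _ a)
      · have := b.2 m h1
        have := h2' _ a
        omega
    · have h4 := a.2 m' h1'
      rcases h.2.2 m' (h'.2.1 m' h1') with b | b
      · have := h2 _ b
        omega
      · have := b.2 m h1
        omega
  have hcard : s.card = s'.card := by rw [h3, h3', hmm]
  have hcomp : s ⊆ s' ∨ s' ⊆ s := by
    by_contra hcon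
    push Not at hcon
    obtain ⟨c1, c2⟩ := hcon
    obtain ⟨a, ha, ha'⟩ := Finset.not_subset.1 c1
    obtain ⟨b, hb, hb'⟩ := Finset.not_subset.1 c2
    have e1 := (h'.2.2 a (h.2.1 a ha)).resolve_left ha'
    have e2 := (h.2.2 b (h'.2.1 b hb)).resolve_left hb'
    have e3 := e1.2 b hb
    have e4 := e2.2 a ha
    omega
  rcases hcomp with hc | hc
  · exact Finset.eq_of_subset_of_card_le hc hcard.ge
  · exact (Finset.eq_of_subset_of_card_le hc hcard.le).symm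

theorem hom : TaskHOM := by
  intro d X hX
  let S : Set (Set ℕ) := {Z | ∃ s : Finset ℕ, Z ∈ Nb s Z ∧
    (∃ m ∈ s, (∀ i ∈ s, m ≤ i) ∧ s.card = m + 1) ∧ d (∑ i ∈ s, 2 ^ i) = true}
  have hEO : EO S := by
    rintro Z ⟨s, h1, h2, h3⟩ _
    exact ⟨s, h1, fun w hw => ⟨s, Nb_self hw, h2, h3⟩⟩
  obtain ⟨Y, hYX, hYi, hY⟩ := hEO.cr ∅ X hX
  -- the canonical continuation
  have key : ∀ s : Finset ℕ, (∀ i ∈ s, i ∈ Y) → ∃ Z : Set ℕ, Z ∈ Nb s Z ∧ Z ∈ Nb ∅ Y := by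
    intro s hs
    obtain ⟨Z, hZ⟩ := Nb_nonempty (t := s) hYi
    refine ⟨Z, Nb_self hZ, hZ.1, fun n hn => absurd hn (Finset.notMem_empty n), fun n hn => ?_⟩
    right
    rw [above_empty]
    rcases hZ.2.2 n hn with h | h
    · exact hs n h
    · exact h.1
  rcases hY with hY | hY
  · refine ⟨Y, hYX, hYi, true, fun s hs hm => ?_⟩
    obtain ⟨Z, hZ1, hZ2⟩ := key s hs
    obtain ⟨s', h1, h2, h3⟩ := hY Z hZ2
    rw [hom_init hZ1 h1 hm h2]
    exact h3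
  · refine ⟨Y, hYX, hYi, false, fun s hs hm => ?_⟩
    obtain ⟨Z, hZ1, hZ2⟩ := key s hs
    by_contra hcon
    have htrue : d (∑ i ∈ s, 2 ^ i) = true := by
      cases hd : d (∑ i ∈ s, 2 ^ i)
      · exact absurd hd hcon
      · rfl
    exact hY Z hZ2 ⟨s, hZ1, hm, htrue⟩

end Pool.Agent.H938R3.HT
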