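import Pool.Agent.H938R3.HT.Stmts
import Pool.Agent.Helper583.TCJ14

/-!
# `TaskPHI`: a countable family of partial continuous functionals containing all Turing reductions
-/

namespace Pool.Agent.H938R3.HT.Phi

open Pool.Agent.Helper583.TC.J2.NF

/-- characteristic function -/
noncomputable def chi (Y : Set ℕ) (i : ℕ) : ℕ := by
  classical exact if i ∈ Y then 1 else 0

theorem chi_mem {Y : Set ℕ} {i : ℕ} (h : i ∈ Y) : chi Y i = 1 := by
  unfold chi
  exact if_pos h

theorem chi_not_mem {Y : Set ℕ} {i : ℕ} (h : i ∉ Y) : chi Y i = 0 := by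
  unfold chi
  exact if_neg h

theorem countable_good :
    {F : List ℕ → ℕ → Option ℕ | Primrec₂ F ∧ Mon F}.Countable := by
  have h1 : ∀ F : List ℕ → ℕ → Option ℕ, Primrec₂ F → ∃ c : Nat.Partrec.Code,
      ∀ n, c.eval n = Part.some (Encodable.encode
        ((Encodable.decode (α := List ℕ × ℕ) n).map (fun p => F p.1 p.2))) := by
    intro F hF
    have h2 : Primrec fun p : List ℕ × ℕ => F p.1 p.2 := hF
    have h3 : Nat.Primrec fun n => Encodable.encode
        ((Encodable.decode (α := List ℕ × ℕ) n).map (fun p : List ℕ × ℕ => F p.1 p.2)) := h2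
    obtain ⟨c, hc⟩ := Nat.Partrec.Code.exists_code.1 (Nat.Partrec.of_primrec h3)
    refine ⟨c, fun n => ?_⟩
    rw [hc]
    rfl
  choose! C hC using h1
  have hinj : Set.InjOn C {F : List ℕ → ℕ → Option ℕ | Primrec₂ F ∧ Mon F} := by
    intro F hF G hG hFG
    funext l n
    have e1 := hC F hF.1 (Encodable.encode (l, n))
    have e2 := hC G hG.1 (Encodable.encode (l, n))
    rw [hFG, e2] at e1
    have e3 := Part.some_inj.1 e1
    have e4 := Encodable.encode_injective e3
    simp only [Encodable.encodek, Option.map_some] at e4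
    exact (Option.some_injective _ e4).symm
  exact Set.countable_of_injective_of_countable_image hinj (Set.to_countable _)

theorem pre_congr {g g' : ℕ → ℕ} {k : ℕ} (h : ∀ i < k, g i = g' i) : pre g k = pre g' k := by
  unfold pre
  apply List.map_congr_left
  intro i hi
  exact h i (List.mem_range.1 hi)

theorem pre_prefix (g : ℕ → ℕ) {k l : ℕ} (h : k ≤ l) : pre g k <+: pre g l := by
  obtain ⟨d, rfl⟩ := Nat.exists_eq_add_of_le h
  unfold pre
  rw [List.range_add, List.map_append]
  exact List.prefix_append _ _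

end Pool.Agent.H938R3.HT.Phi

namespace Pool.Agent.H938R3.HT

open Phi Pool.Agent.Helper583.TC.J2.NF

theorem phi : TaskPHI := by
  obtain ⟨F, hF⟩ := countable_good.exists_eq_range
    ⟨fun _ _ => none, Primrec₂.const none, fun _ _ _ _ _ h => by simp at h⟩
  have hmem : ∀ e, Primrec₂ (F e) ∧ Mon (F e) := by
    intro e
    have : F e ∈ {F : List ℕ → ℕ → Option ℕ | Primrec₂ F ∧ Mon F} := by
      rw [hF]; exact ⟨e, rfl⟩
    exact this
  refine ⟨fun e Y n b => ∃ k, F e (pre (chi Y) k) n = some b.toNat, ⟨?_, ?_⟩, ?_⟩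
  · rintro e Y n b b' ⟨k, hk⟩ ⟨k', hk'⟩
    have m1 := (hmem e).2 _ _ n _ (pre_prefix (chi Y) (le_max_left k k')) hk
    have m2 := (hmem e).2 _ _ n _ (pre_prefix (chi Y) (le_max_right k k')) hk'
    rw [m1] at m2
    have m3 := Option.some_injective _ m2
    cases b <;> cases b' <;> simp_all
  · rintro e Y n b ⟨k, hk⟩
    refine ⟨k, fun Y' hY' => ⟨k, ?_⟩⟩
    rw [← hk]
    congr 1
    refine pre_congr fun i hi => ?_
    by_cases hy : i ∈ Y
    · rw [chi_mem hy, chi_mem ((hY' i hi).2 hy)]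
    · rw [chi_not_mem hy, chi_not_mem (fun h => hy ((hY' i hi).1 h))]
  · intro g h hgh
    obtain ⟨G, hG1, hG2, hG3⟩ := normal_form (fun n => (h n).toNat) _ hgh
    have hG : G ∈ {F : List ℕ → ℕ → Option ℕ | Primrec₂ F ∧ Mon F} := ⟨hG1, hG2⟩
    rw [hF] at hG
    obtain ⟨e, rfl⟩ := hG
    refine ⟨e, fun n => ?_⟩
    obtain ⟨k, hk⟩ := (hG3 n (g n).toNat).1 (by simp [PFun.lift])
    refine ⟨k, ?_⟩
    rw [← hk]
    congr 1
    refine pre_congr fun i hi => ?_
    by_cases hy : h i = true
    · rw [chi_mem (by exact hy), hy]; rfl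
    · rw [chi_not_mem (by exact hy), Bool.eq_false_iff.2 hy]; rfl

end Pool.Agent.H938R3.HT
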