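import Pool.Agent.H938R3.HT.Stmts

namespace Pool.Agent.H938R3.HT

theorem pig938 : TaskPIG := by
  classical
  intro H hH M hM
  have h1 : (H ∩ Set.Ici M).Infinite := by
    have : (H \ Set.Iio M).Infinite := hH.sdiff (Set.finite_Iio M)
    refine this.mono ?_
    rintro x ⟨h1, h2⟩
    exact ⟨h1, by simpa using h2⟩
  have h2 : ∃ r, ((H ∩ Set.Ici M) ∩ {n | n % M = r}).Infinite := by
    by_contra hcon
    push Not at hcon
    apply h1
    have : (H ∩ Set.Ici M) ⊆ ⋃ r ∈ Finset.range M, ((H ∩ Set.Ici M) ∩ {n | n % M = r}) := by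
      intro n hn
      simp only [Set.mem_iUnion]
      exact ⟨n % M, Finset.mem_range.2 (Nat.mod_lt _ hM), hn, rfl⟩
    refine Set.Finite.subset ?_ this
    apply Set.Finite.biUnion (Finset.finite_toSet _)
    intro r _
    have := hcon r
    simpa using this
  obtain ⟨r, hr⟩ := h2
  obtain ⟨F, hF1, hF2⟩ := hr.exists_subset_card_eq M
  refine ⟨F, Finset.card_pos.1 (by omega), fun i hi => ⟨(hF1 hi).1.1, (hF1 hi).1.2⟩, ?_⟩
  apply Nat.dvd_of_mod_eq_zero
  rw [Finset.sum_nat_mod]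
  have : ∑ i ∈ F, i % M = ∑ i ∈ F, r := Finset.sum_congr rfl fun i hi => (hF1 hi).2
  rw [this]
  simp [hF2]

end Pool.Agent.H938R3.HT
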