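import Pool.Agent.H938R3.HT.Stmts

/-! Task SUPP of project H938-HT. -/

set_option autoImplicit false

namespace Pool.Agent.H938R3.HT

open Finset

theorem mem_supp (n i : ℕ) : i ∈ supp n ↔ n.testBit i = true := by
  unfold supp
  rw [mem_filter, mem_range]
  constructor
  · exact fun h => h.2
  · intro h
    exact ⟨lt_of_lt_of_le Nat.lt_two_pow_self (Nat.ge_two_pow_of_testBit h), h⟩

theorem supp_spec : TaskSUPP := by
  refine ⟨?_, ?_, ?_, ?_⟩
  · intro n hn
    obtain ⟨i, hi⟩ := Nat.exists_testBit_of_ne_zero hn.ne'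
    exact ⟨i, (mem_supp n i).2 hi⟩
  · rintro n v t hn ⟨c, rfl⟩
    ext i
    rw [mem_union, mem_supp, mem_supp, mem_supp, add_comm, Nat.testBit_two_pow_mul_add _ hn,
      Nat.testBit_two_pow_mul]
    by_cases h : i < t
    · rw [if_pos h]
      have : ¬ (i ≥ t) := by omega
      simp [this]
    · rw [if_neg h]
      have h1 : i ≥ t := by omega
      have h2 : n.testBit i = false :=
        Nat.testBit_lt_two_pow (lt_of_lt_of_le hn (Nat.pow_le_pow_right (by norm_num) h1))
      simp [h1, h2]
  · rintro v t ⟨c, rfl⟩ i hi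
    rw [mem_supp, Nat.testBit_two_pow_mul] at hi
    simp only [ge_iff_le, Bool.and_eq_true, decide_eq_true_eq] at hi
    omega
  · intro n t h
    refine Nat.lt_pow_two_of_testBit n fun i hi => ?_
    by_contra hc
    rw [Bool.not_eq_false] at hc
    have := h i ((mem_supp n i).2 hc)
    omega

end Pool.Agent.H938R3.HT
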