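import Pool.Agent.H938R3.HT.Stmts

/-!
# TaskTHIN (helper871)
-/

namespace Pool.Agent.H938R3.HT

private theorem thin_step (g : ℕ → ℕ → Finset ℕ → Set ℕ) (X : Set ℕ) (hX : X.Infinite) (a : ℕ) :
    ∃ a' : ℕ, a' ∈ X ∧ a < a' ∧ ∀ e t : ℕ, e ≤ a → t ≤ a → ∀ s : Finset ℕ, (∀ j ∈ s, j ≤ a) →
      ((g e t s).Infinite → ∃ n ∈ g e t s, a < n ∧ n ≤ a') ∧
      ((g e t s).Finite → ∀ n ∈ g e t s, n ≤ a') := by
  classical
  have hB : ∀ (e t : ℕ) (s : Finset ℕ), ∃ B : ℕ,
      ((g e t s).Infinite → ∃ n ∈ g e t s, a < n ∧ n ≤ B) ∧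
      ((g e t s).Finite → ∀ n ∈ g e t s, n ≤ B) := by
    intro e t s
    by_cases h : (g e t s).Finite
    · obtain ⟨B, hB⟩ := h.bddAbove
      exact ⟨B, fun h' => absurd h h', fun _ n hn => hB hn⟩
    · obtain ⟨n, hn, hn'⟩ := Set.Infinite.exists_gt h a
      exact ⟨n, fun _ => ⟨n, hn, hn', le_refl _⟩, fun h' => absurd h' h⟩
  choose B hB1 hB2 using hB
  let S : ℕ := (Finset.range (a + 1) ×ˢ Finset.range (a + 1) ×ˢ (Finset.range (a + 1)).powerset).sup
    (fun p => B p.1 p.2.1 p.2.2)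
  obtain ⟨a', ha', hgt⟩ := Set.Infinite.exists_gt hX (max a S)
  have h1 : a < a' := lt_of_le_of_lt (le_max_left _ _) hgt
  have h2 : S < a' := lt_of_le_of_lt (le_max_right _ _) hgt
  refine ⟨a', ha', h1, fun e t he ht s hs => ?_⟩
  have h3 : B e t s ≤ a' := by
    have hmem : (e, t, s) ∈ Finset.range (a + 1) ×ˢ Finset.range (a + 1) ×ˢ
        (Finset.range (a + 1)).powerset := by
      rw [Finset.mem_product, Finset.mem_product, Finset.mem_range, Finset.mem_range,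
        Finset.mem_powerset]
      refine ⟨Nat.lt_succ_of_le he, Nat.lt_succ_of_le ht, fun j hj => ?_⟩
      exact Finset.mem_range.2 (Nat.lt_succ_of_le (hs j hj))
    have h4 : B e t s ≤ S := Finset.le_sup (f := fun p : ℕ × ℕ × Finset ℕ => B p.1 p.2.1 p.2.2) hmem
    exact h4.trans h2.le
  constructor
  · intro h
    obtain ⟨n, hn, hn1, hn2⟩ := hB1 e t s h
    exact ⟨n, hn, hn1, hn2.trans h3⟩
  · intro h n hn
    exact (hB2 e t s h n hn).trans h3

theorem thin : TaskTHIN := by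
  intro g X hX
  choose F hF1 hF2 hF3 using thin_step g X hX
  let x : ℕ → ℕ := fun n => Nat.rec (F 0) (fun _ y => F y) n
  have hx : ∀ n, x (n + 1) = F (x n) := fun n => rfl
  refine ⟨x, strictMono_nat_of_lt_succ fun n => ?_, fun p => ?_, ?_⟩
  · rw [hx]; exact hF2 _
  · cases p with
    | zero => exact hF1 0
    | succ p => rw [hx]; exact hF1 _
  · intro p e t he ht s hs
    rw [hx]
    exact hF3 (x p) e t he ht s hs

end Pool.Agent.H938R3.HT
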