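import Pool.Agent.H938R3.HT.Stmts

/-!
# Task V of the project H938-HT (MP_833c5c_lc)
-/

namespace Pool.Agent.H938R3.HT

namespace TV

/-- a nonempty subset of `F` of elements `≥ 2^(t+1)` whose sum is divisible by `2^(t+1)` -/
def Q (t : ℕ) (F s : Finset ℕ) : Prop :=
  s ⊆ F ∧ s.Nonempty ∧ (∀ i ∈ s, 2 ^ (t + 1) ≤ i) ∧ 2 ^ (t + 1) ∣ ∑ i ∈ s, i

/-- `F` has such a subset -/
def P (t : ℕ) (F : Finset ℕ) : Prop := ∃ s, Q t F s

open Classical in
/-- a choice -/
noncomputable def pick (t : ℕ) (F : Finset ℕ) : Finset ℕ :=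
  if h : P t F then h.choose else ∅

theorem pick_spec {t : ℕ} {F : Finset ℕ} (h : P t F) : Q t F (pick t F) := by
  unfold pick
  rw [dif_pos h]
  exact h.choose_spec

/-- the functional -/
def VV (Φ : ℕ → Set ℕ → ℕ → Bool → Prop) : Fam := fun e t Y h =>
  ∃ (N : ℕ) (F : Finset ℕ), (∀ i < N, Φ e Y i (decide (i ∈ F))) ∧ F ⊆ Finset.range N ∧ P t F ∧
    (∀ N' < N, ¬ P t (F.filter (· < N'))) ∧ h = supp (∑ i ∈ pick t F, i)

theorem agree {Φ : ℕ → Set ℕ → ℕ → Bool → Prop} (hΦ : Fun Φ) {e : ℕ} {Y : Set ℕ} {n : ℕ}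
    {F F' : Finset ℕ} (h : Φ e Y n (decide (n ∈ F))) (h' : Φ e Y n (decide (n ∈ F'))) :
    n ∈ F ↔ n ∈ F' := by
  have := hΦ.func h h'
  simpa using this

theorem no_lt {Φ : ℕ → Set ℕ → ℕ → Bool → Prop} (hΦ : Fun Φ) {e t : ℕ} {Y : Set ℕ} {N N' : ℕ}
    {F F' : Finset ℕ} (h1 : ∀ i < N, Φ e Y i (decide (i ∈ F))) (h2 : F ⊆ Finset.range N)
    (h3 : P t F) (h1' : ∀ i < N', Φ e Y i (decide (i ∈ F')))
    (h4' : ∀ M < N', ¬ P t (F'.filter (· < M))) : ¬ N < N' := by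
  intro hlt
  apply h4' N hlt
  have hF : F'.filter (· < N) = F := by
    ext i
    simp only [Finset.mem_filter]
    constructor
    · rintro ⟨hi, hiN⟩
      exact (agree hΦ (h1 i hiN) (h1' i (hiN.trans hlt))).2 hi
    · intro hi
      have hiN : i < N := Finset.mem_range.1 (h2 hi)
      exact ⟨(agree hΦ (h1 i hiN) (h1' i (hiN.trans hlt))).1 hi, hiN⟩
  rw [hF]
  exact h3

theorem good (hS : TaskSUPP) {Φ : ℕ → Set ℕ → ℕ → Bool → Prop} (hΦ : Fun Φ) : Good (VV Φ) where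
  func := by
    rintro e t Y h h' ⟨N, F, h1, h2, h3, h4, rfl⟩ ⟨N', F', h1', h2', h3', h4', rfl⟩
    have hN : N = N' := le_antisymm
      (Nat.le_of_not_lt (no_lt hΦ h1' h2' h3' h1 h4))
      (Nat.le_of_not_lt (no_lt hΦ h1 h2 h3 h1' h4'))
    subst hN
    have hF : F = F' := by
      ext i
      constructor
      · intro hi
        have hiN : i < N := Finset.mem_range.1 (h2 hi)
        exact (agree hΦ (h1 i hiN) (h1' i hiN)).1 hi
      · intro hi
        have hiN : i < N := Finset.mem_range.1 (h2' hi)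
        exact (agree hΦ (h1 i hiN) (h1' i hiN)).2 hi
    rw [hF]
  cont := by
    rintro e t Y h ⟨N, F, h1, h2, h3, h4, rfl⟩
    have key : ∀ i, ∃ n : ℕ, i < N → ∀ Y' : Set ℕ, (∀ j < n, (j ∈ Y' ↔ j ∈ Y)) →
        Φ e Y' i (decide (i ∈ F)) := by
      intro i
      by_cases hi : i < N
      · obtain ⟨n, hn⟩ := hΦ.cont (h1 i hi)
        exact ⟨n, fun _ => hn⟩
      · exact ⟨0, fun h => absurd h hi⟩
    choose n hn using key
    refine ⟨(Finset.range N).sup n, fun Y' hY' => ⟨N, F, ?_, h2, h3, h4, rfl⟩⟩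
    intro i hi
    apply hn i hi Y'
    intro j hj
    apply hY' j
    exact lt_of_lt_of_le hj (Finset.le_sup (f := n) (Finset.mem_range.2 hi))
  ne := by
    rintro e t Y h ⟨N, F, h1, h2, h3, h4, rfl⟩
    obtain ⟨q1, ⟨a, ha⟩, q3, q4⟩ := pick_spec h3
    apply hS.1
    have hle : a ≤ ∑ i ∈ pick t F, i :=
      Finset.single_le_sum (f := fun i : ℕ => i) (fun i _ => Nat.zero_le i) ha
    have h2p : 0 < 2 ^ (t + 1) := by positivity
    have := q3 a ha
    omega
  gt := by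
    rintro e t Y h ⟨N, F, h1, h2, h3, h4, rfl⟩
    obtain ⟨q1, q2, q3, q4⟩ := pick_spec h3
    exact hS.2.2.1 _ _ q4

end TV

theorem v : TaskV := by
  intro hS hP Φ hΦ
  refine ⟨TV.VV Φ, TV.good hS hΦ, ?_⟩
  intro e Y g hinf hg
  have hgF : ∀ N : ℕ, ∀ i < N, Φ e Y i (decide (i ∈ (Finset.range N).filter (g · = true))) := by
    intro N i hi
    have : decide (i ∈ (Finset.range N).filter (g · = true)) = g i := by
      simp [hi]
    rw [this]
    exact hg i
  constructor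
  · intro t
    have hex : ∃ N, TV.P t ((Finset.range N).filter (g · = true)) := by
      obtain ⟨s, hs, hsm, hd⟩ := hP _ hinf (2 ^ (t + 1)) (by positivity)
      refine ⟨s.sup id + 1, s, ?_, hs, fun i hi => (hsm i hi).2, hd⟩
      intro i hi
      rw [Finset.mem_filter, Finset.mem_range]
      exact ⟨Nat.lt_succ_of_le (Finset.le_sup (f := id) hi), (hsm i hi).1⟩
    classical
    refine ⟨_, Nat.find hex, (Finset.range (Nat.find hex)).filter (g · = true), hgF _,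
      Finset.filter_subset _ _, Nat.find_spec hex, ?_, rfl⟩
    intro N' hN' hPN
    apply Nat.find_min hex hN'
    convert hPN using 1
    ext i
    simp only [Finset.mem_filter, Finset.mem_range]
    constructor
    · rintro ⟨a, b⟩
      exact ⟨⟨a.trans hN', b⟩, a⟩
    · rintro ⟨⟨a, b⟩, c⟩
      exact ⟨c, b⟩
  · rintro t h ⟨N, F, h1, h2, h3, h4, rfl⟩
    obtain ⟨q1, q2, q3, q4⟩ := TV.pick_spec h3
    refine ⟨TV.pick t F, q2, fun i hi => ⟨?_, q3 i hi⟩, q4, rfl⟩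
    have hiF : i ∈ F := q1 hi
    have hiN : i < N := Finset.mem_range.1 (h2 hiF)
    have := hΦ.func (hg i) (h1 i hiN)
    rw [this]
    simpa using hiF

end Pool.Agent.H938R3.HT
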