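import Pool.Agent.H938R3.HT.Glue
import Pool.Agent.H224R3.HT.Trace
import Pool.Agent.H938R3.HT.GS
import Pool.Agent.H938R3.HT.CPT
import Pool.Agent.H3R3.HT.EE
import Pool.Agent.H938R3.HT.SUPP
import Pool.Agent.H938R3.HT.Fin
import Pool.Agent.H938R3.HT.Build
import Pool.Agent.H938R3.HT.HOM
import Pool.Agent.H938R3.HT.THIN
import Pool.Agent.H938R3.HT.FRONT
import Pool.Agent.H938R3.HT.PHI
import Pool.Agent.H938R3.HT.V_helper861
import Pool.Agent.H938R3.HT.Pig938
import Pool.Agent.H410R3.HTC.Count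

namespace Pool.Agent.H938R3.HT

theorem final : Final :=
  final_of gs_spec thin Pool.Agent.H224R3.HT.trace cpt front Pool.Agent.H410R3.HTC.count
    Pool.Agent.H3R3.HT.ee build phi supp_spec pig938 v hom fin

end Pool.Agent.H938R3.HT
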