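import Mathlib

/-!
# Interface for the negation of `HT ≤_sc RT^{!ω}_2` (MP_833c5c_lc, S14980)

`Fam`: a countable family (index `e`) of partial continuous functionals: `V e t Y h` says that the
functional with index `e` and parameter `t`, applied to the set `Y`, is defined with value the
finite set `h` (a binary support).
-/

namespace Pool.Agent.H938R3.HT

set_option linter.unusedVariables false

abbrev Fam := ℕ → ℕ → Set ℕ → Finset ℕ → Prop

structure Good (V : Fam) : Prop where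
  func : ∀ {e t : ℕ} {Y : Set ℕ} {h h' : Finset ℕ}, V e t Y h → V e t Y h' → h = h'
  cont : ∀ {e t : ℕ} {Y : Set ℕ} {h : Finset ℕ}, V e t Y h →
    ∃ n : ℕ, ∀ Y' : Set ℕ, (∀ i < n, (i ∈ Y' ↔ i ∈ Y)) → V e t Y' h
  ne : ∀ {e t : ℕ} {Y : Set ℕ} {h : Finset ℕ}, V e t Y h → h.Nonempty
  gt : ∀ {e t : ℕ} {Y : Set ℕ} {h : Finset ℕ}, V e t Y h → ∀ i ∈ h, t < i

inductive Chain (V : Fam) (e : ℕ) (Y : Set ℕ) : Finset ℕ → Prop
  | base (t : ℕ) (h : Finset ℕ) : V e t Y h → Chain V e Y h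
  | step (G : Finset ℕ) (t : ℕ) (h : Finset ℕ) : Chain V e Y G → (∀ i ∈ G, i ≤ t) →
      V e t Y h → Chain V e Y (G ∪ h)

/-- The core theorem. -/
def Core : Prop := ∀ V : Fam, Good V → ∃ X : Set ℕ, X.Infinite ∧ ∃ c : Finset ℕ → Bool,
  ∀ e : ℕ, ∀ Y : Set ℕ, Y ⊆ X → Y.Infinite → (∀ t, ∃ h, V e t Y h) →
    ∃ G G', Chain V e Y G ∧ Chain V e Y G' ∧ c G ≠ c G'

/-- Definedness is decided by a finite initial segment. -/
def Dich (V : Fam) (x : ℕ → ℕ) : Prop := ∀ e q m : ℕ, e ≤ m → q ≤ m →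
  ∀ A A' : Set ℕ, A.Infinite → A'.Infinite → (∀ i ≤ m, (i ∈ A ↔ i ∈ A')) →
    (∃ h, V e (x q) (x '' A) h) → ∃ h, V e (x q) (x '' A') h

/-- Block index: the least `i` with `n ≤ x i`. -/
noncomputable def blk (x : ℕ → ℕ) (n : ℕ) : ℕ := sInf {i | n ≤ x i}

/-- Left endpoints of the runs of the set of block indices met by `F`. -/
noncomputable def EE (x : ℕ → ℕ) (F : Finset ℕ) : Finset ℕ :=
  (F.image (blk x)).filter (fun i => ∀ j ∈ F.image (blk x), j + 1 ≠ i)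

/-- The trace of a value is controlled by the index set. -/
def Trace (V : Fam) (x : ℕ → ℕ) : Prop := ∀ (e q : ℕ) (A : Set ℕ) (h : Finset ℕ),
  A.Infinite → V e (x q) (x '' A) h →
    ∀ i ∈ EE x h, i ≤ max q e + 1 ∨ i ∈ A ∨ (∃ j ∈ A, j + 1 = i)

/-- Part 1: fusion and thinning. -/
def Part1 : Prop := ∀ V : Fam, Good V → ∃ x : ℕ → ℕ, StrictMono x ∧ Dich V x ∧ Trace V x

/-- Part 2: the front and the counting colouring. -/
def Part2 : Prop := ∀ V : Fam, Good V → ∀ x : ℕ → ℕ, StrictMono x → Dich V x → Trace V x →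
  ∃ c : Finset ℕ → Bool, ∀ e : ℕ, ∀ Y : Set ℕ, Y ⊆ Set.range x → Y.Infinite →
    (∀ t, ∃ h, V e t Y h) → ∃ G G', Chain V e Y G ∧ Chain V e Y G' ∧ c G ≠ c G'

theorem core_of (h1 : Part1) (h2 : Part2) : Core := by
  intro V hV
  obtain ⟨x, hx, hd, ht⟩ := h1 V hV
  obtain ⟨c, hc⟩ := h2 V hV x hx hd ht
  exact ⟨Set.range x, Set.infinite_range_of_injective hx.injective, c, hc⟩

end Pool.Agent.H938R3.HT
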