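import Pool.Agent.H938R3.HT.Stmts

/-!
Fusion: task FUS.
-/

namespace Pool.Agent.H938R3.HT

open Pool.Agent.H38R3.Ell

/-- value sets -/
def SS (V : Fam) (e t b : ℕ) (r : Finset ℕ) : Set (Set ℕ) :=
  {Z | ∃ h, V e t Z h ∧ ∀ i ≤ b, (i ∈ h ↔ i ∈ r)}

theorem SS_EO {V : Fam} (hV : Good V) (e t b : ℕ) (r : Finset ℕ) : EO (SS V e t b r) := by
  rintro z ⟨h, hh, hr⟩ hz
  obtain ⟨n, hn⟩ := hV.cont hh
  obtain ⟨s, h1, h2, h3, -⟩ := exists_init hz n 0
  refine ⟨s, h1, fun w hw => ⟨h, hn w fun i hi => ⟨fun hiw => ?_, fun hiz => ?_⟩, hr⟩⟩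
  · rcases hw.2.2 i hiw with h4 | h4
    · exact h3 i h4
    · exact h4.1
  · exact hw.2.1 i (h2 i hiz hi)

theorem fin_dense {ι : Type} (I : Finset ι) (C : ι → Set ℕ → Prop)
    (hm : ∀ i Y Y', Y' ⊆ Y → C i Y → C i Y')
    (hd : ∀ i Y, Y.Infinite → ∃ Y' ⊆ Y, Y'.Infinite ∧ C i Y') (Y : Set ℕ) (hY : Y.Infinite) :
    ∃ Y' ⊆ Y, Y'.Infinite ∧ ∀ i ∈ I, C i Y' := by
  classical
  induction I using Finset.induction_on with
  | empty => exact ⟨Y, le_rfl, hY, by simp⟩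
  | insert a s _ ih =>
    obtain ⟨Z, h1, h2, h3⟩ := ih
    obtain ⟨Y', h4, h5, h6⟩ := hd a Z h2
    refine ⟨Y', h4.trans h1, h5, fun u hu => ?_⟩
    rcases Finset.mem_insert.1 hu with rfl | hu
    · exact h6
    · exact hm _ _ _ h4 (h3 u hu)

/-- the condition for fusion -/
def Cd (V : Fam) (u : Finset ℕ) (i : Finset ℕ × ℕ × ℕ × Finset ℕ) (Y : Set ℕ) : Prop :=
  (∀ z ∈ Nb i.1 (above u Y), z ∈ SS V i.2.1 i.2.2.1 (u.sup id) i.2.2.2) ∨
  (∀ z ∈ Nb i.1 (above u Y), z ∉ SS V i.2.1 i.2.2.1 (u.sup id) i.2.2.2)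

theorem Cd_mono (V : Fam) (u : Finset ℕ) (i : Finset ℕ × ℕ × ℕ × Finset ℕ) (Y Y' : Set ℕ)
    (h : Y' ⊆ Y) (hc : Cd V u i Y) : Cd V u i Y' := by
  rcases hc with hc | hc
  · exact Or.inl fun z hz => hc z (Nb_mono (above_mono h) hz)
  · exact Or.inr fun z hz => hc z (Nb_mono (above_mono h) hz)

theorem Cd_dense {V : Fam} (hV : Good V) (u : Finset ℕ) (i : Finset ℕ × ℕ × ℕ × Finset ℕ)
    (Y : Set ℕ) (hY : Y.Infinite) : ∃ Y' ⊆ Y, Y'.Infinite ∧ Cd V u i Y' := by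
  obtain ⟨Y', h1, h2, h3⟩ := (SS_EO hV i.2.1 i.2.2.1 (u.sup id) i.2.2.2).cr i.1 Y hY
  refine ⟨Y', h1, h2, ?_⟩
  rcases h3 with h3 | h3
  · exact Or.inl fun z hz => h3 z (Nb_mono above_subset hz)
  · exact Or.inr fun z hz => h3 z (Nb_mono above_subset hz)

/-- fusion task -/
theorem fus : TaskFUS := by
  classical
  intro V hV
  let idx : Finset ℕ → Finset (Finset ℕ × ℕ × ℕ × Finset ℕ) := fun u =>
    u.powerset ×ˢ (Finset.range (u.sup id + 1) ×ˢ (Finset.range (u.sup id + 1) ×ˢ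
      (Finset.range (u.sup id + 1)).powerset))
  obtain ⟨X, -, hX, hR⟩ := fusion (fun u Y => ∀ i ∈ idx u, Cd V u i Y)
    (fun u Y Y' h hY i hi => Cd_mono V u i Y Y' h (hY i hi))
    (fun u Y hY => fin_dense (idx u) (Cd V u) (fun i Y Y' h hc => Cd_mono V u i Y Y' h hc)
      (fun i Y hY => Cd_dense hV u i Y hY) Y hY) ∅ Set.univ Set.infinite_univ
  refine ⟨X, hX, ?_⟩
  intro b hb Y Y' hYX hYX' hY hY' hag e he t ht h hh
  set u : Finset ℕ := (Finset.range (b + 1)).filter (· ∈ X) with hu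
  have hbu : b ∈ u := Finset.mem_filter.2 ⟨Finset.mem_range.2 (by omega), hb⟩
  have hsup : u.sup id = b := by
    apply le_antisymm
    · apply Finset.sup_le
      intro i hi
      have := Finset.mem_range.1 (Finset.mem_filter.1 hi).1
      simp only [id_eq]
      omega
    · exact Finset.le_sup (f := id) hbu
  set s : Finset ℕ := (Finset.range (b + 1)).filter (· ∈ Y) with hs
  set r : Finset ℕ := h.filter (· ≤ b) with hr
  have hsu : s ⊆ u := by
    intro i hi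
    exact Finset.mem_filter.2 ⟨(Finset.mem_filter.1 hi).1, hYX (Finset.mem_filter.1 hi).2⟩
  have key := hR u (fun n hn => (Finset.mem_filter.1 hn).2)
  rw [Finset.empty_union] at key
  have hi : ((s, e, t, r) : Finset ℕ × ℕ × ℕ × Finset ℕ) ∈ idx u := by
    simp only [idx, hsup, Finset.mem_product, Finset.mem_powerset, Finset.mem_range]
    refine ⟨hsu, by omega, by omega, fun i hi => ?_⟩
    have := (Finset.mem_filter.1 hi).2
    exact Finset.mem_range.2 (by omega)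
  have key2 := key _ hi
  unfold Cd at key2
  simp only [hsup] at key2
  have hNb : ∀ Z : Set ℕ, Z ⊆ X → Z.Infinite → (∀ i ≤ b, (i ∈ Y ↔ i ∈ Z)) →
      Z ∈ Nb s (above u (above u X)) := by
    intro Z hZX hZ hag2
    refine ⟨hZ, fun n hn => ?_, fun n hn => ?_⟩
    · have h1 := Finset.mem_range.1 (Finset.mem_filter.1 hn).1
      exact (hag2 n (by omega)).1 (Finset.mem_filter.1 hn).2
    · by_cases hnb : n ≤ b
      · exact Or.inl (Finset.mem_filter.2 ⟨Finset.mem_range.2 (by omega), (hag2 n hnb).2 hn⟩)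
      · have h2 : ∀ m ∈ u, m < n := by
          intro m hm
          have := Finset.mem_range.1 (Finset.mem_filter.1 hm).1
          omega
        exact Or.inr ⟨⟨⟨hZX hn, h2⟩, h2⟩, fun m hm => h2 m (hsu hm)⟩
  have hYS : Y ∈ SS V e t b r := by
    refine ⟨h, hh, fun i hi => ?_⟩
    simp [hr, hi]
  rcases key2 with key2 | key2
  · obtain ⟨h', h1, h2⟩ := key2 Y' (hNb Y' hYX' hY' hag)
    refine ⟨h', h1, fun i hi => ?_⟩
    rw [h2 i hi]
    simp [hr, hi]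
  · exact absurd hYS (key2 Y (hNb Y hYX hY fun i _ => Iff.rfl))

end Pool.Agent.H938R3.HT
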