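import Pool.Agent.H938R3.HT.FUS

namespace Pool.Agent.H938R3.HT

theorem part1_of (hgs : TaskGS) (hth : TaskTHIN) (htr : TaskTRACE) : Part1 := by
  intro V hV
  obtain ⟨X, hX, hD⟩ := fus V hV
  obtain ⟨x, hx, hxX, hthin⟩ := hth (gs V X) X hX
  obtain ⟨h1, h2⟩ := htr hgs V hV X hD x hx hxX hthin
  exact ⟨x, hx, h1, h2⟩

theorem core (hgs : TaskGS) (hth : TaskTHIN) (htr : TaskTRACE) (hcpt : TaskCPT)
    (hfront : TaskFRONT) (hcount : TaskCOUNT) (hee : TaskEE) (hbuild : TaskBUILD) : Core :=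
  core_of (part1_of hgs hth htr) (hbuild hcpt hfront hcount hee)

theorem final_of (hgs : TaskGS) (hth : TaskTHIN) (htr : TaskTRACE) (hcpt : TaskCPT)
    (hfront : TaskFRONT) (hcount : TaskCOUNT) (hee : TaskEE) (hbuild : TaskBUILD)
    (hphi : TaskPHI) (hsupp : TaskSUPP) (hpig : TaskPIG) (hv : TaskV) (hhom : TaskHOM)
    (hfin : TaskFIN) : Final :=
  hfin (core hgs hth htr hcpt hfront hcount hee hbuild) hphi hsupp hpig hv hhom

end Pool.Agent.H938R3.HT
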